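import Mathlib

namespace Pool.Agent.Results.MP_39d387_al.Baire

open Set Topology Filter

universe u

/-- Every locally finite family of nonempty open sets is finite. -/
def Pseudocompact (X : Type u) [TopologicalSpace X] : Prop :=
  ∀ 𝒰 : Set (Set X), (∀ U ∈ 𝒰, IsOpen U ∧ U.Nonempty) →
    (LocallyFinite fun U : 𝒰 => (U : Set X)) → 𝒰.Finite

/-- Countably pracompact spaces. -/
def CountablyPracompact (X : Type u) [TopologicalSpace X] : Prop :=
  ∃ A : Set X, Dense A ∧ ∀ B ⊆ A, B.Infinite → ∃ x, ∀ U ∈ 𝓝 x, (U ∩ B).Infinite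

/-- 2-pseudocompact paratopological groups. -/
def TwoPseudocompact (G : Type u) [Group G] [TopologicalSpace G] : Prop :=
  ∀ U : ℕ → Set G, Antitone U → (∀ n, IsOpen (U n) ∧ (U n).Nonempty) →
    (⋂ n, closure (U n)⁻¹).Nonempty

open Pointwise in
lemma q2 (G : Type u) [Group G] [TopologicalSpace G] [ContinuousMul G] [BaireSpace G]
    (h : CountablyPracompact G) : TwoPseudocompact G := by
  obtain ⟨A, hA, h⟩ := h
  intro U hU hU'
  have ho : ∀ n, IsOpen (A * U n) := fun n => by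
    rw [← iUnion_mul_left_image]
    exact isOpen_biUnion fun a _ => (Homeomorph.mulLeft a).isOpenMap _ (hU' n).1
  have hd : ∀ n, Dense (A * U n) := fun n => by
    obtain ⟨u, hu⟩ := (hU' n).2
    refine ((Homeomorph.mulRight u).surjective.denseRange.dense_image
      (Homeomorph.mulRight u).continuous hA).mono ?_
    rintro _ ⟨a, ha, rfl⟩; exact mul_mem_mul ha hu
  obtain ⟨c, hc⟩ := (dense_iInter_of_isOpen ho hd).nonempty
  choose b hb u hu e using mem_iInter.1 hc
  have key : ∀ z, (∀ V ∈ 𝓝 z, {n | b n ∈ V}.Infinite) → (⋂ n, closure (U n)⁻¹).Nonempty := by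
    refine fun z hz => ⟨c⁻¹ * z, mem_iInter.2 fun n => mem_closure_iff_nhds.2 fun V hV => ?_⟩
    obtain ⟨m, hm, hnm⟩ := (hz _ ((continuous_const_mul c⁻¹).continuousAt hV)).exists_gt n
    refine ⟨c⁻¹ * b m, hm, ?_⟩
    have : (c⁻¹ * b m)⁻¹ = u m := by rw [← e m]; simp
    exact mem_inv.2 (this ▸ hU hnm.le (hu m))
  by_cases hf : (range b).Finite
  · have := hf.to_subtype
    obtain ⟨z, hz⟩ := Finite.exists_infinite_fiber (rangeFactorization b)
    refine key z fun V hV => (infinite_coe_iff.1 hz).mono fun n hn => ?_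
    have : b n = z := congrArg Subtype.val hn
    show b n ∈ V
    exact this ▸ mem_of_mem_nhds hV
  · obtain ⟨z, hz⟩ := h _ (range_subset_iff.2 hb) hf
    refine key z fun V hV => Infinite.of_image b ((hz V hV).mono ?_)
    rintro _ ⟨h1, n, rfl⟩; exact ⟨n, h1, rfl⟩

/-- The circle. -/
abbrev T : Type := AddCircle (1 : ℝ)

lemma exists_f : ∃ (L : Type) (_ : AddCommGroup L) (_ : LinearOrder L) (_ : IsOrderedAddMonoid L)
    (f : T →+ L), (∀ q : ℚ, f (q : ℝ) = 0) ∧ ∀ l : ℕ → L, ∃ x, ∀ n, l n < f x := by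
  classical
  obtain ⟨ι, ⟨b⟩⟩ : ∃ ι : Type, Nonempty (Module.Basis ι ℚ ℝ) :=
    ⟨_, ⟨Module.Basis.ofVectorSpace ℚ ℝ⟩⟩
  obtain ⟨_, _⟩ := exists_wellFoundedLT ι
  have hJ : ¬ {i : ι | (Iio i).Countable}.Countable := fun h => by
    by_cases h1 : {i : ι | ¬ (Iio i).Countable}.Nonempty
    · obtain ⟨m, hm, hm'⟩ := wellFounded_lt.has_min _ h1
      exact hm (h.mono fun i hi => not_not.1 fun h2 => hm' i h2 hi)
    · have : Countable ι := countable_univ_iff.1 (h.mono fun i _ => not_not.1 fun h2 => h1 ⟨i, h2⟩)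
      exact not_countable_iff.2 inferInstance b.repr.injective.countable
  let I := {i : ι // (Iio i).Countable ∧ i ∉ (b.repr 1).support}
  let f0 : ℝ →+ Lex (Iᵒᵈ →₀ ℚ) :=
    (Finsupp.comapDomain.addMonoidHom (f := fun i : I => i.1) Subtype.val_injective).comp
      b.repr.toLinearMap.toAddMonoidHom
  have hq : ∀ q : ℚ, f0 q = 0 := fun q => Finsupp.ext fun i => by
    show b.repr q i.1 = 0
    rw [← Rat.smul_one_eq_cast, map_smul, Finsupp.smul_apply, Finsupp.notMem_support_iff.1 i.2.2,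
      smul_zero]
  refine ⟨Lex (Iᵒᵈ →₀ ℚ), inferInstance, inferInstance, inferInstance,
    QuotientAddGroup.lift _ f0 ?_, hq, fun l => ?_⟩
  · rintro _ ⟨k, rfl⟩
    simpa using hq k
  · have hc : ((b.repr 1).support ∪
        ⋃ n, ⋃ j ∈ (ofLex (l n)).support, Iic (show I from j).1 : Set ι).Countable :=
      (Finset.countable_toSet _).union (countable_iUnion fun n => (Finset.countable_toSet _).biUnion
        fun j _ => by rw [← Iio_insert]; exact j.2.1.insert _)
    obtain ⟨i, hi, hi'⟩ := not_subset.1 fun h => hJ (hc.mono h)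
    simp only [mem_union, mem_iUnion, not_or, not_exists, mem_Iic, not_le] at hi'
    have h0 : ∀ n (j : I), i ≤ j.1 → ofLex (l n) j = 0 := fun n j hj =>
      Finsupp.notMem_support_iff.1 fun h => (hi'.2 n j h).not_ge hj
    refine ⟨(b i : ℝ), fun n => ⟨(⟨i, hi, hi'.1⟩ : I), fun j hj => ?_, ?_⟩⟩
    · have hj' : i < (show I from j).1 := hj
      refine (h0 n j hj'.le).trans ?_
      show 0 = b.repr (b i) _
      rw [b.repr_self, Finsupp.single_eq_of_ne hj'.ne']
    · refine (h0 n _ le_rfl).trans_lt ?_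
      show 0 < b.repr (b i) i
      simp

variable {L : Type} [AddCommGroup L] [LinearOrder L]

/-- The circle with the finer topology. -/
def G (_ : T →+ L) : Type := T

variable (f : T →+ L)

noncomputable instance : AddCommGroup (G f) := inferInstanceAs (AddCommGroup T)

instance : TopologicalSpace (G f) where
  IsOpen U := ∀ x : T, x ∈ U → ∀ᶠ y in 𝓝 x, f x ≤ f y → y ∈ U
  isOpen_univ _ _ := Eventually.of_forall fun _ _ => trivial
  isOpen_inter _ _ hU hV x hx :=
    ((hU x hx.1).and (hV x hx.2)).mono fun _ h h' => ⟨h.1 h', h.2 h'⟩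
  isOpen_sUnion _ h x := fun ⟨U, hU, hx⟩ => (h U hU x hx).mono fun _ h h' => ⟨U, hU, h h'⟩

/-- Basic open sets. -/
def B (V : Set T) (l : L) : Set (G f) := {y : T | y ∈ V ∧ l ≤ f y}

lemma B_open {V : Set T} (hV : IsOpen V) (l : L) : IsOpen (B f V l) :=
  fun _ hx => (hV.eventually_mem hx.1).mono fun _ h h' => ⟨h, hx.2.trans h'⟩

lemma mem_nhds_G {x : T} {U : Set (G f)} :
    U ∈ @nhds (G f) _ x ↔ ∀ᶠ y in 𝓝 x, f x ≤ f y → y ∈ U := by
  constructor
  · intro h
    obtain ⟨V, h1, h2, h3⟩ := mem_nhds_iff.1 h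
    exact (h2 x h3).mono fun _ h h' => h1 (h h')
  · intro h
    obtain ⟨V, h1, h2, h3⟩ := eventually_nhds_iff.1 h
    exact mem_nhds_iff.2 ⟨B f V (f x), fun y hy => h1 y hy.1 hy.2, B_open f h2 _, h3, le_rfl⟩

lemma sub_B {U : Set (G f)} (hU : IsOpen U) (h : U.Nonempty) :
    ∃ V l, IsOpen V ∧ V.Nonempty ∧ B f V l ⊆ U := by
  obtain ⟨x, hx⟩ := h
  obtain ⟨V, h1, h2, h3⟩ := eventually_nhds_iff.1 (hU x hx)
  exact ⟨V, f x, h2, ⟨x, h3⟩, fun y hy => h1 y hy.1 hy.2⟩

instance [IsOrderedAddMonoid L] : ContinuousAdd (G f) where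
  continuous_add := continuous_iff_continuousAt.2 fun p U hU => by
    have h1 := (continuous_add (M := T)).tendsto (show T × T from p) ((mem_nhds_G f).1 hU)
    obtain ⟨V, hV, W, hW, h⟩ := (mem_nhds_prod_iff (X := T) (Y := T)).1 h1
    refine mem_nhds_prod_iff.2 ⟨B f V (f p.1), (mem_nhds_G f).2 ?_, B f W (f p.2),
      (mem_nhds_G f).2 ?_, fun q hq => h (mk_mem_prod hq.1.1 hq.2.1) ?_⟩
    · filter_upwards [hV] with y h1 h2 using ⟨h1, h2⟩
    · filter_upwards [hW] with y h1 h2 using ⟨h1, h2⟩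
    · exact ((f.map_add _ _).trans_le (add_le_add hq.1.2 hq.2.2)).trans_eq (f.map_add _ _).symm

theorem result :
    (∃ (G : Type) (_ : Group G) (_ : TopologicalSpace G), ContinuousMul G ∧ T2Space G ∧
      Pseudocompact G ∧ BaireSpace G ∧ ¬ TwoPseudocompact G) ∧
    ∀ (G : Type u) [Group G] [TopologicalSpace G] [ContinuousMul G] [BaireSpace G],
      CountablyPracompact G → TwoPseudocompact G := by
  refine ⟨?_, q2⟩
  obtain ⟨L, _, _, _, f, hq, hl⟩ := exists_f
  have hc : @Continuous (G f) T _ _ id := ⟨fun V hV x hx => (hV.eventually_mem hx).mono fun _ h _ => h⟩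
  have hd : ∀ {V : Set T}, IsOpen V → V.Nonempty → ∀ l, (B f V l).Nonempty := by
    intro V hV hV' l
    obtain ⟨x, hx⟩ := hl fun _ => l
    have h1 : DenseRange fun q : ℚ => x + ((q : ℝ) : T) :=
      (Homeomorph.addLeft x).surjective.denseRange.comp (QuotientAddGroup.mk_surjective.denseRange.comp
        Rat.denseRange_cast (AddCircle.continuous_mk' 1)) (Homeomorph.addLeft x).continuous
    obtain ⟨q, h2⟩ := h1.exists_mem_open hV hV'
    exact ⟨_, h2, by rw [map_add, hq, add_zero]; exact (hx 0).le⟩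
  refine ⟨Multiplicative (G f), inferInstance, inferInstance, inferInstance,
    @T2Space.of_injective_continuous (G f) T _ _ _ id (fun _ _ h => h) hc, fun 𝒰 h1 h2 => ?_,
    ⟨fun D h1 h2 => ?_⟩, fun h => ?_⟩
  · choose V l hV hV' hB using fun U : 𝒰 => sub_B f (h1 U U.2).1 (h1 U U.2).2
    have h3 : LocallyFinite V := fun x => by
      obtain ⟨W, hW, h4⟩ := h2 x
      obtain ⟨W', h5, h6, h7⟩ := eventually_nhds_iff.1 ((mem_nhds_G f).1 hW)
      refine ⟨W', h6.mem_nhds h7, h4.subset fun U hU => ?_⟩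
      obtain ⟨y, h8, h9⟩ := hd ((hV U).inter h6) hU (max (l U) (f x))
      exact ⟨y, hB U ⟨h8.1, le_of_max_le_left h9⟩, h5 y h8.2 (le_of_max_le_right h9)⟩
    have := h3.finite_nonempty_of_compact
    rw [show {U | (V U).Nonempty} = univ from eq_univ_of_forall hV', finite_univ_iff] at this
    exact toFinite _
  · obtain ⟨b, hb, hb0, hb'⟩ := TopologicalSpace.exists_countable_basis T
    have := hb.to_subtype
    have h3 : ∀ p : ℕ × b, ∃ V l, IsOpen V ∧ (V ∩ p.2).Nonempty ∧ B f V l ⊆ D p.1 := fun p => by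
      obtain ⟨V, l, h4, h5, h6⟩ := sub_B f ((B_open f (hb'.isOpen p.2.2) 0).inter (h1 p.1))
        ((h2 p.1).inter_open_nonempty _ (B_open f (hb'.isOpen p.2.2) 0) (hd (hb'.isOpen p.2.2)
          (nonempty_iff_ne_empty.2 fun h => hb0 (h ▸ p.2.2)) 0))
      obtain ⟨y, hy⟩ := hd h4 h5 l
      exact ⟨V, l, h4, ⟨y, hy.1, (h6 hy).1.1⟩, fun z hz => (h6 hz).2⟩
    choose V l hV hV' hB using h3
    obtain ⟨e, he⟩ := exists_injective_nat (ℕ × b)
    obtain ⟨m, hm⟩ := hl (Function.extend e l 0)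
    have hC : Dense (⋂ n, ⋃ p, V (n, p)) := dense_iInter_of_isOpen
      (fun n => isOpen_iUnion fun p => hV _) fun n => hb'.dense_iff.2 fun o ho _ => by
        obtain ⟨y, h4, h5⟩ := hV' (n, ⟨o, ho⟩)
        exact ⟨y, h5, mem_iUnion.2 ⟨_, h4⟩⟩
    have hC' : (⋂ n, ⋃ p, V (n, p)) ∈ residual T :=
      residual_of_dense_Gδ (.iInter_of_isOpen fun n => isOpen_iUnion fun p => hV _) hC
    refine dense_iff_inter_open.2 fun U hU hU' => ?_
    obtain ⟨W, k, hW, hW', hWU⟩ := sub_B f hU hU'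
    obtain ⟨w : T, hw, hw'⟩ := hd hW hW' (max k (f m))
    have h4 := tendsto_residual_of_isOpenMap (Homeomorph.subLeft (w + w)).continuous
      (Homeomorph.subLeft (w + w)).isOpenMap hC'
    obtain ⟨z, ⟨h5, h6⟩, h7, h8⟩ := (dense_of_mem_residual (inter_mem hC' h4)).inter_open_nonempty
      (W ∩ (fun z => w + w - z) ⁻¹' W) (hW.inter (hW.preimage (by fun_prop))) ⟨w, hw, by simpa⟩
    have key : ∀ z : T, z ∈ W → z ∈ ⋂ n, ⋃ p, V (n, p) → f w ≤ f z →
        (U ∩ ⋂ n, D n).Nonempty := fun z h1 h2 h3 => by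
      refine ⟨z, hWU ⟨h1, (le_of_max_le_left hw').trans h3⟩, mem_iInter.2 fun n => ?_⟩
      obtain ⟨p, hp⟩ := mem_iUnion.1 (mem_iInter.1 h2 n)
      have := hm (e (n, p))
      rw [he.extend_apply] at this
      exact hB _ ⟨hp, this.le.trans ((le_of_max_le_right hw').trans h3)⟩
    rcases le_total (f w) (f z) with h9 | h9
    · exact key z h5 h7 h9
    · exact key _ h6 h8 (by rw [map_sub, map_add, le_sub_iff_add_le]; gcongr)
  · obtain ⟨m, hm⟩ := hl fun _ => 0
    obtain ⟨x, hx⟩ := h (fun n => B f (Metric.ball 0 (1 / (n + 1 : ℝ))) (f m))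
      (fun i j hij y hy => ⟨Metric.ball_subset_ball (Nat.one_div_le_one_div hij) hy.1, hy.2⟩)
      fun n => ⟨B_open f Metric.isOpen_ball _,
        hd Metric.isOpen_ball (Metric.nonempty_ball.2 Nat.one_div_pos_of_nat) _⟩
    have h0 : (show T from x) = 0 := by
      refine dist_le_zero.1 (ge_of_tendsto' tendsto_one_div_add_atTop_nhds_zero_nat fun n => ?_)
      have h1 : IsClosed {y : T | dist y 0 ≤ 1 / (n + 1 : ℝ)} :=
        isClosed_le (continuous_id.dist continuous_const) continuous_const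
      refine closure_minimal (X := G f) (fun y hy => ?_) (h1.preimage hc) (mem_iInter.1 hx n)
      have : dist (-(show T from y)) 0 < _ := hy.1
      rw [dist_zero_right, norm_neg, ← dist_zero_right] at this
      exact this.le
    obtain ⟨y, h1, h2⟩ := mem_closure_iff.1 (mem_iInter.1 hx 0) _ (B_open f isOpen_univ 0)
      ⟨trivial, by rw [h0, map_zero]⟩
    have h3 : f m ≤ f (-(show T from y)) := h2.2
    rw [map_neg] at h3
    exact (hm 0).not_ge (h3.trans (neg_nonpos.2 h1.2))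

end Pool.Agent.Results.MP_39d387_al.Baire
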